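import Pool.Agent.Helper94.SY.St

/-!
# Project SY, module LT: the elements of `S` on light dense lines
-/

set_option autoImplicit false

namespace Pool.Agent.Helper47.SY

open Pool.Agent.Helper94.SY Finset
open scoped Classical
open Pool.Agent.Helper1.PFS (G rmul lineSum StA)

section

variable {p : ℕ} [Fact p.Prime]

lemma mu_smul (F : Finset (W p × W p)) (r v : W p) (c : (ZMod p)ˣ) :
    mu F r ((c : ZMod p) • v) = mu F r v := by
  unfold mu
  rw [← Equiv.sum_comp (Equiv.mulRight c)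
    (fun d : (ZMod p)ˣ => if (r, (d : ZMod p) • v) ∈ F then (1 : ℝ) else 0)]
  refine Finset.sum_congr rfl fun d _ => ?_
  simp only [Equiv.coe_mulRight, Units.val_mul, mul_smul]

lemma mu_mono {F F' : Finset (W p × W p)} (h : F ⊆ F') (r v : W p) : mu F r v ≤ mu F' r v := by
  unfold mu
  refine Finset.sum_le_sum fun d _ => ?_
  by_cases h1 : (r, (d : ZMod p) • v) ∈ F
  · rw [if_pos h1, if_pos (h h1)]
  · rw [if_neg h1]
    split_ifs
    · exact zero_le_one
    · exact le_rfl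

lemma FF_sub (S : Finset (G p)) (s K : ℝ) : FF S s K ⊆ DD S s := Finset.filter_subset _ _

lemma mem_DD {S : Finset (G p)} {s : ℝ} {e : W p × W p} :
    e ∈ DD S s ↔ e.1 ≠ 0 ∧ e.2 ≠ 0 ∧ s * p ≤ dl S e.1 e.2 := by
  unfold DD
  rw [Finset.mem_filter]
  exact ⟨fun h => h.2, fun h => ⟨Finset.mem_univ _, h⟩⟩

lemma mem_FF {S : Finset (G p)} {s K : ℝ} {e : W p × W p} :
    e ∈ FF S s K ↔ e ∈ DD S s ∧ mu (DD S s) e.1 e.2 ≤ K := by
  unfold FF
  rw [Finset.mem_filter]

lemma mu_FF_le (S : Finset (G p)) (s K : ℝ) (hK : 0 ≤ K) (r v : W p) :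
    mu (FF S s K) r v ≤ K := by
  by_cases h : ∃ c : (ZMod p)ˣ, (r, (c : ZMod p) • v) ∈ FF S s K
  · obtain ⟨c, hc⟩ := h
    have h1 := (mem_FF.1 hc).2
    have h2 : mu (DD S s) r ((c : ZMod p) • v) = mu (DD S s) r v := mu_smul _ _ _ _
    exact (mu_mono (FF_sub S s K) r v).trans (h2 ▸ h1)
  · push Not at h
    unfold mu
    rw [Finset.sum_eq_zero fun d _ => if_neg (h d)]
    exact hK

lemma smul_inj' {c : ZMod p} (hc : c ≠ 0) {a b : W p} : c • a = c • b ↔ a = b := by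
  constructor
  · intro h
    have h1 : c • (a - b) = 0 := by rw [smul_sub, h, sub_self]
    exact sub_eq_zero.1 ((smul_eq_zero.1 h1).resolve_left hc)
  · rintro rfl; rfl

lemma dl_smul (S : Finset (G p)) (r v : W p) (c : (ZMod p)ˣ) :
    dl S ((c : ZMod p) • r) ((c : ZMod p) • v) = dl S r v := by
  unfold dl
  refine Finset.sum_congr rfl fun g _ => ?_
  rw [Pool.Agent.Helper1.PFS.rmul_smul]
  simp only [smul_inj' c.ne_zero]

lemma DD_smul {S : Finset (G p)} {s : ℝ} {r v : W p} (c : (ZMod p)ˣ) :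
    ((c : ZMod p) • r, (c : ZMod p) • v) ∈ DD S s ↔ (r, v) ∈ DD S s := by
  rw [mem_DD, mem_DD]
  simp only [dl_smul, ne_eq, smul_eq_zero, c.ne_zero, false_or]

lemma mu_smul_left (S : Finset (G p)) (s : ℝ) (r v : W p) (c : (ZMod p)ˣ) :
    mu (DD S s) ((c : ZMod p) • r) ((c : ZMod p) • v) = mu (DD S s) r v := by
  unfold mu
  refine Finset.sum_congr rfl fun d _ => ?_
  have h1 : (d : ZMod p) • (c : ZMod p) • v = (c : ZMod p) • (d : ZMod p) • v := smul_comm _ _ _
  rw [h1]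
  simp only [DD_smul]

lemma FF_smul {S : Finset (G p)} {s K : ℝ} {r v : W p} (c : (ZMod p)ˣ) (h : (r, v) ∈ FF S s K) :
    ((c : ZMod p) • r, (c : ZMod p) • v) ∈ FF S s K := by
  rw [mem_FF] at h ⊢
  exact ⟨(DD_smul c).2 h.1, (mu_smul_left S s r v c).le.trans h.2⟩

lemma RR_eq (F : Finset (W p × W p)) (g : G p) :
    RR F g = ∑ e ∈ F, if rmul e.1 g = e.2 then (1 : ℝ) else 0 := by
  unfold RR
  rw [← Finset.sum_filter, ← Finset.sum_filter]
  refine Finset.sum_bij (fun r _ => (r, rmul r g)) ?_ ?_ ?_ ?_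
  · intro r hr
    rw [Finset.mem_filter] at hr ⊢
    exact ⟨hr.2, rfl⟩
  · intro r _ r' _ h
    exact congrArg Prod.fst h
  · rintro ⟨r, v⟩ he
    rw [Finset.mem_filter] at he
    obtain ⟨h1, h2⟩ := he
    change rmul r g = v at h2
    refine ⟨r, ?_, ?_⟩
    · rw [Finset.mem_filter, h2]
      exact ⟨Finset.mem_univ _, h1⟩
    · rw [h2]
  · intro r _; rfl

lemma RR_ge {S : Finset (G p)} {s K : ℝ} {g : G p} {r : W p} (h : (r, rmul r g) ∈ FF S s K) :
    ((p : ℝ) - 1) ≤ RR (FF S s K) g := by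
  have hr : r ≠ 0 := (mem_DD.1 (FF_sub S s K h)).1
  have hp : 1 ≤ p := (Fact.out : p.Prime).one_lt.le
  have h1 : ((Finset.univ.image fun c : (ZMod p)ˣ => (c : ZMod p) • r).card : ℝ) = (p : ℝ) - 1 := by
    rw [Finset.card_image_of_injective _ ?_]
    · rw [Finset.card_univ, ZMod.card_units, Nat.cast_sub hp, Nat.cast_one]
    · intro c c' hcc
      have h2 : ((c : ZMod p) - c') • r = 0 := by
        rw [sub_smul]; exact sub_eq_zero.2 hcc
      exact Units.ext (sub_eq_zero.1 ((smul_eq_zero.1 h2).resolve_right hr))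
  rw [← h1]
  unfold RR
  rw [← Finset.sum_filter, Finset.sum_const, nsmul_eq_mul, mul_one, Nat.cast_le]
  refine Finset.card_le_card ?_
  intro w hw
  rw [Finset.mem_image] at hw
  obtain ⟨c, -, rfl⟩ := hw
  rw [Finset.mem_filter, Pool.Agent.Helper1.PFS.rmul_smul]
  exact ⟨Finset.mem_univ _, FF_smul c h⟩

end

/-- LT. The elements on light dense lines. -/
theorem hLT : StLN → StLT := by
  intro hLN p _ S s K hK
  refine ⟨fun r v => mu_FF_le S s K hK r v, ?_⟩
  have hp : 2 ≤ (p : ℝ) := by exact_mod_cast (Fact.out : p.Prime).two_le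
  set A := S.filter fun g => ∃ r : W p, (r, rmul r g) ∈ FF S s K with hA
  have h1 : ((p : ℝ) - 1) * A.card ≤ ∑ g ∈ S, RR (FF S s K) g := by
    have h2 : ((p : ℝ) - 1) * A.card ≤ ∑ g ∈ A, RR (FF S s K) g := by
      have h3 : ∑ g ∈ A, ((p : ℝ) - 1) ≤ ∑ g ∈ A, RR (FF S s K) g := by
        refine Finset.sum_le_sum fun g hg => ?_
        rw [hA, Finset.mem_filter] at hg
        obtain ⟨r, hr⟩ := hg.2
        exact RR_ge hr
      rw [Finset.sum_const, nsmul_eq_mul] at h3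
      linarith [mul_comm ((p : ℝ) - 1) (A.card : ℝ)]
    refine h2.trans (Finset.sum_le_sum_of_subset_of_nonneg (Finset.filter_subset _ _) ?_)
    intro g _ _
    unfold RR
    exact Finset.sum_nonneg fun r _ => by split_ifs <;> norm_num
  have h4 : ∑ g ∈ S, RR (FF S s K) g = ∑ e ∈ FF S s K, dl S e.1 e.2 := by
    simp only [RR_eq]
    rw [Finset.sum_comm]
    rfl
  have h5 : ∑ e ∈ FF S s K, dl S e.1 e.2 ≤ ((FF S s K).card : ℝ) * p := by
    have h6 : ∑ e ∈ FF S s K, dl S e.1 e.2 ≤ ∑ e ∈ FF S s K, (p : ℝ) := by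
      refine Finset.sum_le_sum fun e he => ?_
      have h7 := mem_DD.1 (FF_sub S s K he)
      rw [← hLN p e.1 e.2 h7.1 h7.2.1]
      unfold dl
      refine Finset.sum_le_sum_of_subset_of_nonneg (Finset.subset_univ _) ?_
      intro g _ _
      split_ifs <;> norm_num
    rwa [Finset.sum_const, nsmul_eq_mul] at h6
  rw [h4] at h1
  have h8 := h1.trans h5
  have h9 : (0 : ℝ) ≤ (FF S s K).card := Nat.cast_nonneg _
  have h10 : ((p : ℝ) - 1) * A.card ≤ ((p : ℝ) - 1) * (2 * (FF S s K).card) := by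
    nlinarith
  exact le_of_mul_le_mul_left h10 (by linarith)

end Pool.Agent.Helper47.SY
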